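import Mathlib
import Pool.Agent.Q251.MA.RSd
import Pool.Agent.Q251.MA.Sup

set_option autoImplicit false

/-! Monochromatic progressions in the Rudin-Shapiro sequence with differences below `2 ^ k` (full answer). -/

namespace Pool.Agent.Results.MP_fa909a_co.DyadicMaxima

/-- the number of occurrences (with overlaps) of the block `11` in the binary expansion of `n`: the number of `i` for
which the binary digits number `i` and `i + 1` of `n` are both `1` -/
noncomputable def e₁₁ (n : ℕ) : ℕ := {i : ℕ | n.testBit i = true ∧ n.testBit (i + 1) = true}.ncard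

/-- the Rudin-Shapiro sequence in 0/1 form -/
noncomputable def r (n : ℕ) : ℕ := e₁₁ n % 2

/-- the number of terms of the longest monochromatic progression with first term `n` and difference `d` -/
noncomputable def A₁ (n d : ℕ) : ℕ∞ := ⨆ (l : ℕ) (_ : ∀ j < l, r (n + j * d) = r n), (l : ℕ∞)

/-- the maximal number of terms of a monochromatic progression of difference `d` -/
noncomputable def A (d : ℕ) : ℕ∞ := ⨆ n : ℕ, A₁ n d

/-- For all `k ≥ 5`: `A d ≤ 2 ^ (k - 1)` for `1 ≤ d ≤ 2 ^ k - 2`, and `A (2 ^ k - 1)` is `2 ^ (k - 1) + 1` for even `k`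
and `2 ^ (k - 1) + 3` for odd `k`. -/
theorem result : ∀ k : ℕ, 5 ≤ k →
    (∀ d : ℕ, 1 ≤ d → d ≤ 2 ^ k - 2 → A d ≤ (2 ^ (k - 1) : ℕ)) ∧
    A (2 ^ k - 1) = (2 ^ (k - 1) + (if Even k then 1 else 3) : ℕ) := by
  have ht : ∀ n, r n = Q251.MA.G 1 n % 2 := fun n => by rw [r, e₁₁, Q251.MA.blocks_eq]
  intro k hk
  refine ⟨?_, ?_⟩
  · intro d hd hdk
    have hp : 2 ^ 5 ≤ 2 ^ k := Nat.pow_le_pow_right (by norm_num) hk
    exact Q251.MA.sup_le ht (Q251.MA.RS.below hk hd (by omega))
  · apply le_antisymm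
    · apply Q251.MA.sup_le ht
      have h := Q251.MA.RS.sp_up hk
      have e : 2 ^ (k - 1) + (if Even k then 1 else 3) + 1 = 2 ^ (k - 1) + (if Even k then 2 else 4) := by
        split_ifs <;> ring
      rw [e]
      exact h
    · exact Q251.MA.le_sup ht (Q251.MA.RS.sp_low hk)

end Pool.Agent.Results.MP_fa909a_co.DyadicMaxima
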